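import Pool.Agent.helper78.NLS.Spec

/-!
# Project nls: (MP_70a088_an): CHV, change of variables in the square integrable functions
-/

set_option autoImplicit false

open Complex Metric Set Filter Topology MeasureTheory MPS
open Pool.Agent.helper98.ILF Pool.Agent.helper16.Multibrot

noncomputable section

namespace NLS

theorem CHV_gpow {n : ℕ} (hn : 1 ≤ n) (j : ℕ) (w : ℂ) : (om n ^ j * rt n w) ^ n = w := by
  have h1 : om n ^ n = 1 := (Complex.isPrimitiveRoot_exp n (by omega)).pow_eq_one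
  have h2 : rt n w ^ n = w := by
    rw [rt, one_div]
    exact Complex.cpow_nat_inv_pow w (by omega)
  rw [mul_pow, h2, ← pow_mul, mul_comm j n, pow_mul, h1, one_pow, one_mul]

theorem CHV_ff (n : ℕ) (c : ℂ) : Measurable (ff n c) := by
  have : Continuous (ff n c) := by
    unfold ff
    fun_prop
  exact this.measurable

theorem CHV_fd (n : ℕ) : Measurable (fd n) := by
  have : Continuous (fd n) := by
    unfold fd
    fun_prop
  exact this.measurable

theorem CHV_null (hMCV : MPS.MCV_stmt) (n : ℕ) (c : ℂ) (hn : 1 ≤ n) (N : Set ℂ)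
    (hN : volume N = 0) : volume {z | ff n c z ∈ N} = 0 := by
  set N' : Set ℂ := toMeasurable volume N with hN'
  have hm : MeasurableSet N' := measurableSet_toMeasurable _ _
  have hv : volume N' = 0 := by rw [hN', measure_toMeasurable, hN]
  have h := hMCV n c hn (fun _ => 1) N' measurable_const hm
  rw [Measure.restrict_eq_zero.2 hv, lintegral_zero_measure, setLIntegral_one] at h
  refine measure_mono_null ?_ h.symm
  intro z hz
  exact subset_toMeasurable volume N hz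

theorem CHV_div (a b : ENNReal) (hb : b ≠ ⊤) : a * b / b ≤ a := by
  rcases eq_or_ne b 0 with h | h
  · rw [h, mul_zero, ENNReal.zero_div]
    exact bot_le
  · rw [ENNReal.mul_div_cancel_right h hb]

theorem CHV_lint (hMCV : MPS.MCV_stmt) (n : ℕ) (c : ℂ) (hn : 1 ≤ n) (v : ℂ → ℂ)
    (hv : Measurable v) :
    ∫⁻ y, ‖v (ff n c y) * fd n y‖ₑ ^ (2 : ℝ) ≤ (n : ENNReal) * ∫⁻ z, ‖v z‖ₑ ^ (2 : ℝ) := by
  have hF : Measurable (fun y => ‖v (ff n c y) * fd n y‖ₑ ^ (2 : ℝ)) :=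
    (((hv.comp (CHV_ff n c)).mul (CHV_fd n)).enorm).pow_const _
  have h := hMCV n c hn (fun y => ‖v (ff n c y) * fd n y‖ₑ ^ (2 : ℝ)) univ hF MeasurableSet.univ
  have e : {y : ℂ | y ^ n + c ∈ (univ : Set ℂ)} = univ := by simp
  rw [e, Measure.restrict_univ] at h
  rw [← h, ← lintegral_const_mul _ (hv.enorm.pow_const _)]
  apply lintegral_mono
  intro z
  have h1 : ∀ j ∈ Finset.range n, ‖v (ff n c (om n ^ j * rt n (z - c))) *
      fd n (om n ^ j * rt n (z - c))‖ₑ ^ (2 : ℝ) /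
        ENNReal.ofReal (‖fd n (om n ^ j * rt n (z - c))‖ ^ 2) ≤ ‖v z‖ₑ ^ (2 : ℝ) := by
    intro j _
    have h2 : ff n c (om n ^ j * rt n (z - c)) = z := by
      rw [ff, CHV_gpow hn, sub_add_cancel]
    rw [h2, enorm_mul, ENNReal.mul_rpow_of_nonneg _ _ (by norm_num)]
    have h3 : ENNReal.ofReal (‖fd n (om n ^ j * rt n (z - c))‖ ^ 2) =
        ‖fd n (om n ^ j * rt n (z - c))‖ₑ ^ (2 : ℝ) := by
      rw [ENNReal.ofReal_pow (norm_nonneg _), ofReal_norm]
      norm_cast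
    rw [h3]
    apply CHV_div
    rw [← h3]
    exact ENNReal.ofReal_ne_top
  calc _ ≤ ∑ j ∈ Finset.range n, ‖v z‖ₑ ^ (2 : ℝ) := Finset.sum_le_sum h1
    _ = _ := by
      rw [Finset.sum_const, Finset.card_range, nsmul_eq_mul]

theorem CHV_norm (hMCV : MPS.MCV_stmt) (n : ℕ) (c : ℂ) (hn : 1 ≤ n) (v : ℂ → ℂ)
    (hv : Measurable v) :
    eLpNorm (fun z => v (ff n c z) * fd n z) 2 volume ≤ n * eLpNorm v 2 volume := by
  rw [eLpNorm_eq_lintegral_rpow_enorm_toReal (by norm_num) (by norm_num),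
    eLpNorm_eq_lintegral_rpow_enorm_toReal (by norm_num) (by norm_num)]
  have h2 : ENNReal.toReal 2 = 2 := by norm_num
  rw [h2]
  have hn1 : (1 : ENNReal) ≤ n := by exact_mod_cast hn
  calc (∫⁻ y, ‖v (ff n c y) * fd n y‖ₑ ^ (2 : ℝ)) ^ (1 / (2 : ℝ))
      ≤ ((n : ENNReal) * ∫⁻ z, ‖v z‖ₑ ^ (2 : ℝ)) ^ (1 / (2 : ℝ)) :=
        ENNReal.rpow_le_rpow (CHV_lint hMCV n c hn v hv) (by norm_num)
    _ = (n : ENNReal) ^ (1 / (2 : ℝ)) * (∫⁻ z, ‖v z‖ₑ ^ (2 : ℝ)) ^ (1 / (2 : ℝ)) :=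
        ENNReal.mul_rpow_of_nonneg _ _ (by norm_num)
    _ ≤ (n : ENNReal) ^ (1 : ℝ) * (∫⁻ z, ‖v z‖ₑ ^ (2 : ℝ)) ^ (1 / (2 : ℝ)) := by
        gcongr
        norm_num
    _ = _ := by rw [ENNReal.rpow_one]

theorem CHV (hMCV : MPS.MCV_stmt) : CHV_stmt := by
  intro n c hn
  refine ⟨CHV_null hMCV n c hn, ?_⟩
  intro u hu
  have hv : Measurable (hu.mk u) := hu.stronglyMeasurable_mk.measurable
  have hae : ∀ᵐ z : ℂ, u z = hu.mk u z := hu.ae_eq_mk
  have hae2 : ∀ᵐ z : ℂ, u (ff n c z) = hu.mk u (ff n c z) := by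
    have h1 := CHV_null hMCV n c hn {z | ¬ (u z = hu.mk u z)} (ae_iff.1 hae)
    exact ae_iff.2 h1
  have hae3 : (fun z => u (ff n c z) * fd n z) =ᵐ[volume]
      fun z => hu.mk u (ff n c z) * fd n z := by
    filter_upwards [hae2] with z hz
    rw [hz]
  constructor
  · refine AEStronglyMeasurable.congr ?_ hae3.symm
    exact ((hv.comp (CHV_ff n c)).mul (CHV_fd n)).aestronglyMeasurable
  · rw [eLpNorm_congr_ae hae3, eLpNorm_congr_ae hu.ae_eq_mk]
    exact CHV_norm hMCV n c hn _ hv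

end NLS
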